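import Pool.Agent.RZ.RCRS.Link_1
import Pool.Agent.RZ.RCRS.Ring

/-! The laws of the ring times in the schemes satisfy `RingLaw` (MP_73ccd0_lc). -/

set_option linter.unusedSectionVars false

namespace Pool.Agent.RZ.RCRS

open MeasureTheory

theorem unif_Iic {β : ℝ} (h1 : β ≤ 1) : unif {c | c ≤ β} = ENNReal.ofReal β := by
  unfold unif
  have hset : {c : ℝ | c ≤ β} = Set.Iic β := rfl
  rw [hset, Measure.restrict_apply measurableSet_Iic]
  have h : (Set.Iic β ∩ Set.Ico (0:ℝ) 1 : Set ℝ) =ᵐ[volume] (Set.Icc 0 β : Set ℝ) := by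
    have h2 : Set.Iic β ∩ Set.Icc (0:ℝ) 1 = Set.Icc 0 β := by
      ext t; simp only [Set.mem_inter_iff, Set.mem_Iic, Set.mem_Icc]
      constructor
      · rintro ⟨a, b, c⟩; exact ⟨b, a⟩
      · rintro ⟨a, b⟩; exact ⟨b, a, b.trans h1⟩
    rw [← h2]
    exact Filter.EventuallyEq.inter (Filter.EventuallyEq.refl _ _) Ico_ae_eq_Icc
  rw [measure_congr h, Real.volume_Icc, sub_zero]

theorem ae_fst_mem : ∀ᵐ p ∂(unif.prod unif), p.1 ∈ Set.Ico (0:ℝ) 1 := by
  have : ∀ᵐ t ∂unif, t ∈ Set.Ico (0:ℝ) 1 := ae_restrict_mem measurableSet_Ico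
  exact Measure.quasiMeasurePreserving_fst.ae this

theorem map_rt_true {b : ℝ → ℝ} (hb : Measurable b) (hb0 : ∀ t, 0 ≤ b t) (hb1 : ∀ t, b t ≤ 1)
    {B : Set ℝ} (hB : MeasurableSet B) (hBs : B ⊆ Set.Ico 0 1) :
    ((unif.prod unif).map (rt b true)) B = ENNReal.ofReal (∫ t in B, b t) := by
  rw [Measure.map_apply (measurable_rt hb true) hB]
  have h1 : rt b true ⁻¹' B =ᵐ[unif.prod unif] {p : ℝ × ℝ | p.1 ∈ B ∧ p.2 ≤ b p.1} := by
    filter_upwards [ae_fst_mem] with p hp
    refine propext ?_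
    show rt b true p ∈ B ↔ (p.1 ∈ B ∧ p.2 ≤ b p.1)
    unfold rt
    constructor
    · intro h
      split_ifs at h with hc
      · exact ⟨h, hc.2⟩
      · exfalso; have := (hBs h).2; have := hp.1; linarith
    · rintro ⟨ha, hc⟩
      rw [if_pos ⟨rfl, hc⟩]; exact ha
  have hm : MeasurableSet {p : ℝ × ℝ | p.1 ∈ B ∧ p.2 ≤ b p.1} := by
    refine measurableSet_setOfPred.2 (Measurable.and ?_ ?_)
    · exact measurableSet_setOfPred.1 (measurable_fst hB)
    · exact measurableSet_setOfPred.1 (measurableSet_le measurable_snd (hb.comp measurable_fst))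
  rw [measure_congr h1, Measure.prod_apply hm]
  have h2 : ∀ t, unif (Prod.mk t ⁻¹' {p : ℝ × ℝ | p.1 ∈ B ∧ p.2 ≤ b p.1}) =
      B.indicator (fun t => ENNReal.ofReal (b t)) t := by
    intro t
    by_cases ht : t ∈ B
    · rw [Set.indicator_of_mem ht, ← unif_Iic (hb1 t)]
      congr 1
      ext c; simp [ht]
    · rw [Set.indicator_of_notMem ht]
      have : Prod.mk t ⁻¹' {p : ℝ × ℝ | p.1 ∈ B ∧ p.2 ≤ b p.1} = ∅ := by
        ext c; simp [ht]
      rw [this]; simp
  simp_rw [h2]
  rw [lintegral_indicator hB]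
  unfold unif
  rw [Measure.restrict_restrict hB, Set.inter_eq_self_of_subset_left hBs]
  have hvol : volume B ≠ ⊤ := by
    refine ne_top_of_le_ne_top ?_ (measure_mono hBs)
    simp
  have : IsFiniteMeasure (volume.restrict B) := ⟨by simpa using lt_top_iff_ne_top.2 hvol⟩
  have hint : Integrable b (volume.restrict B) := by
    refine Integrable.of_bound hb.aestronglyMeasurable 1 (Filter.Eventually.of_forall fun t => ?_)
    rw [Real.norm_eq_abs, abs_of_nonneg (hb0 t)]; exact hb1 t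
  rw [ofReal_integral_eq_lintegral_ofReal hint (Filter.Eventually.of_forall fun t => hb0 t)]

theorem map_rt_false {b : ℝ → ℝ} (hb : Measurable b)
    {B : Set ℝ} (hB : MeasurableSet B) (hBs : B ⊆ Set.Iio 1) :
    ((unif.prod unif).map (rt b false)) B = 0 := by
  rw [Measure.map_apply (measurable_rt hb false) hB]
  have h1 : rt b false ⁻¹' B =ᵐ[unif.prod unif] (∅ : Set (ℝ × ℝ)) := by
    filter_upwards [ae_fst_mem] with p hp
    refine propext ?_
    show rt b false p ∈ B ↔ False
    unfold rt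
    simp only [Bool.false_eq_true, false_and, if_false, iff_false]
    intro h
    have := hBs h
    have := hp.1
    simp only [Set.mem_Iio] at *
    linarith
  rw [measure_congr h1]; simp

theorem map_rt_neg {b : ℝ → ℝ} (hb : Measurable b) (X : Bool) :
    ((unif.prod unif).map (rt b X)) (Set.Iio 0) = 0 := by
  rw [Measure.map_apply (measurable_rt hb X) measurableSet_Iio]
  have h1 : rt b X ⁻¹' (Set.Iio 0) =ᵐ[unif.prod unif] (∅ : Set (ℝ × ℝ)) := by
    filter_upwards [ae_fst_mem] with p hp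
    refine propext ?_
    show rt b X p ∈ Set.Iio 0 ↔ False
    simp only [Set.mem_Iio, iff_false, not_lt]
    exact hp.1.trans (le_rt b X p)
  rw [measure_congr h1]; simp

/-- the law of the ring time of an item which is active with probability `x` and accepted with
probability `b t` when it arrives at time `t` -/
noncomputable def mixture (x : ℝ) (b : ℝ → ℝ) : Measure ℝ :=
  ENNReal.ofReal x • (unif.prod unif).map (rt b true) +
      ENNReal.ofReal (1 - x) • (unif.prod unif).map (rt b false)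

theorem mixture_prob {x : ℝ} (hx0 : 0 ≤ x) (hx1 : x ≤ 1) {b : ℝ → ℝ} (hb : Measurable b) :
    IsProbabilityMeasure (mixture x b) := by
  refine ⟨?_⟩
  have h1 : ∀ X, ((unif.prod unif).map (rt b X)) Set.univ = 1 := by
    intro X
    rw [Measure.map_apply (measurable_rt hb X) MeasurableSet.univ]; simp
  simp only [mixture, Measure.add_apply, Measure.smul_apply, h1, smul_eq_mul, mul_one]
  rw [← ENNReal.ofReal_add hx0 (by linarith)]
  simp

theorem ringLaw_mixture {x : ℝ} (hx0 : 0 ≤ x) {b h : ℝ → ℝ} (hb : Measurable b)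
    (hb0 : ∀ t, 0 ≤ b t) (hb1 : ∀ t, b t ≤ 1) (hh : Measurable h) (hh0 : ∀ t, 0 ≤ h t)
    (hhi : IntegrableOn h (Set.Ico 0 1))
    (hs : ∀ τ ∈ Set.Icc (0:ℝ) 1, ∫ t in Set.Ico 0 τ, x * b t =
      1 - Real.exp (-∫ t in Set.Ico 0 τ, h t)) :
    RingLaw (mixture x b) (fun t => x * b t) h where
  dens := by
    intro B hB hBs
    unfold Measure.real mixture
    rw [Measure.add_apply, Measure.smul_apply, Measure.smul_apply,
      map_rt_true hb hb0 hb1 hB hBs, map_rt_false hb hB (hBs.trans Set.Ico_subset_Iio_self),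
      smul_zero, add_zero, smul_eq_mul, ← ENNReal.ofReal_mul hx0, ENNReal.toReal_ofReal,
      integral_const_mul]
    exact mul_nonneg hx0 (integral_nonneg fun t => hb0 t)
  neg := by
    unfold mixture
    rw [Measure.add_apply, Measure.smul_apply, Measure.smul_apply, map_rt_neg hb, map_rt_neg hb]
    simp
  surv := hs
  h_meas := hh
  h_nonneg := hh0
  φ_nonneg := fun t => mul_nonneg hx0 (hb0 t)
  h_int := hhi
  φ_int := by
    have : IsFiniteMeasure (volume.restrict (Set.Ico (0:ℝ) 1)) := ⟨by simp⟩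
    refine Integrable.of_bound (hb.const_mul x).aestronglyMeasurable x
      (Filter.Eventually.of_forall fun t => ?_)
    rw [Real.norm_eq_abs, abs_of_nonneg (mul_nonneg hx0 (hb0 t))]
    calc x * b t ≤ x * 1 := mul_le_mul_of_nonneg_left (hb1 t) hx0
      _ = x := mul_one x

/-- truncation to the unit interval -/
noncomputable def cut (f : ℝ → ℝ) : ℝ → ℝ := (Set.Ico (0:ℝ) 1).indicator f

theorem cut_of_mem {f : ℝ → ℝ} {t : ℝ} (ht : t ∈ Set.Ico (0:ℝ) 1) : cut f t = f t :=
  Set.indicator_of_mem ht f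

theorem integral_cut (f : ℝ → ℝ) {τ : ℝ} (hτ : τ ≤ 1) :
    ∫ t in Set.Ico 0 τ, cut f t = ∫ t in Set.Ico 0 τ, f t :=
  setIntegral_congr_fun measurableSet_Ico fun t ht => cut_of_mem ⟨ht.1, ht.2.trans_le hτ⟩

theorem measurable_cut {f : ℝ → ℝ} (hf : Measurable f) : Measurable (cut f) :=
  hf.indicator measurableSet_Ico

end Pool.Agent.RZ.RCRS
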