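import Pool.Agent.RZ.RCRS.Greedy_2
import Pool.Agent.RZ.RCRS.Ring

/-! Two-level analysis of the greedy ring process (MP_73ccd0_lc). -/

set_option linter.unusedSectionVars false

namespace Pool.Agent.RZ.RCRS

open MeasureTheory

section Level

variable {ι V : Type*} [Fintype ι] [DecidableEq ι] [Fintype V] [DecidableEq V] (en : ι → Finset V)
variable (ν : ι → Measure ℝ) [∀ i, IsProbabilityMeasure (ν i)] (φ h : ι → ℝ → ℝ) (x : ι → ℝ)

theorem pf_nonneg (A : Finset ι) (W : Finset V) (s : ℝ) : 0 ≤ pf en ν A W s := measureReal_nonneg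

theorem pf_le_one (A : Finset ι) (W : Finset V) (s : ℝ) : pf en ν A W s ≤ 1 := by
  unfold pf; exact measureReal_le_one

theorem pf_anti (A : Finset ι) (W : Finset V) : Antitone (pf en ν A W) := by
  intro s t hst
  refine measureReal_mono ?_ (measure_ne_top _ _)
  intro ρ hρ w hw
  exact free_anti en hst (hρ w hw)

theorem measurable_pf (A : Finset ι) (W : Finset V) : Measurable (pf en ν A W) :=
  (pf_anti en ν A W).measurable

theorem integrableOn_mul_pf {f : ℝ → ℝ} {s : ℝ} (hf : IntegrableOn f (Set.Ico 0 s))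
    (A : Finset ι) (W : Finset V) :
    IntegrableOn (fun t => f t * pf en ν A W t) (Set.Ico 0 s) := by
  refine Integrable.mul_bdd (c := 1) hf (measurable_pf en ν A W).aestronglyMeasurable
    (Filter.Eventually.of_forall fun t => ?_)
  rw [Real.norm_eq_abs, abs_of_nonneg (pf_nonneg en ν A W t)]
  exact pf_le_one en ν A W t

end Level

end Pool.Agent.RZ.RCRS
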