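import Mathlib

/-! From ring processes with independent ring times to random order contention resolution
schemes (MP_73ccd0_lc). -/

set_option linter.unusedSectionVars false

namespace Pool.Agent.RZ.RCRS

open MeasureTheory

/-- uniform law on the unit interval -/
noncomputable def unif : Measure ℝ := volume.restrict (Set.Ico 0 1)

instance : IsProbabilityMeasure unif := ⟨by simp [unif]⟩

/-- ring time from the state, the arrival time and the acceptance coin -/
noncomputable def rt (b : ℝ → ℝ) (X : Bool) (p : ℝ × ℝ) : ℝ :=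
  if X = true ∧ p.2 ≤ b p.1 then p.1 else p.1 + 2

theorem measurable_rt {b : ℝ → ℝ} (hb : Measurable b) (X : Bool) : Measurable (rt b X) := by
  unfold rt
  refine Measurable.ite ?_ measurable_fst (measurable_fst.add_const 2)
  refine measurableSet_setOfPred.2 (measurable_const.and ?_)
  exact measurableSet_setOfPred.1 (measurableSet_le measurable_snd (hb.comp measurable_fst))

section Link

variable {V : Type} [Fintype V] [DecidableEq V] (G : SimpleGraph V) [Fintype G.edgeSet]
  [DecidableEq G.edgeSet]

/-- items: the edges of `G`, and one loop per vertex -/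
def ends : G.edgeSet ⊕ V → Finset V
  | Sum.inl e => (e : Sym2 V).toFinset
  | Sum.inr v => {v}

variable {G}

/-- all ring times -/
noncomputable def rts (b : G.edgeSet → ℝ → ℝ) (X : G.edgeSet → Bool) (Z : G.edgeSet → ℝ × ℝ)
    (l : V → ℝ) : G.edgeSet ⊕ V → ℝ
  | Sum.inl e => rt (b e) (X e) (Z e)
  | Sum.inr v => l v

/-- laws of the ring times -/
noncomputable def laws (b : G.edgeSet → ℝ → ℝ) (x : G.edgeSet → ℝ) (lam : V → Measure ℝ) :
    G.edgeSet ⊕ V → Measure ℝ
  | Sum.inl e => ENNReal.ofReal (x e) • (unif.prod unif).map (rt (b e) true) +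
      ENNReal.ofReal (1 - x e) • (unif.prod unif).map (rt (b e) false)
  | Sum.inr v => lam v

theorem measurable_rts {b : G.edgeSet → ℝ → ℝ} (hb : ∀ e, Measurable (b e))
    (X : G.edgeSet → Bool) :
    Measurable fun p : (G.edgeSet → ℝ × ℝ) × (V → ℝ) => rts b X p.1 p.2 := by
  refine measurable_pi_lambda _ fun i => ?_
  rcases i with e | v
  · exact (measurable_rt (hb e) (X e)).comp ((measurable_pi_apply e).comp measurable_fst)
  · exact (measurable_pi_apply v).comp measurable_snd

theorem strictMono_perm_unique {n : ℕ} {T : Fin n → ℝ} {σ σ' : Equiv.Perm (Fin n)}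
    (h : StrictMono (fun k => T (σ k))) (h' : StrictMono (fun k => T (σ' k))) : σ = σ' := by
  have hr : Set.range (fun k => T (σ k)) = Set.range (fun k => T (σ' k)) := by
    have h1 : Set.range (fun k => T (σ k)) = Set.range T := σ.surjective.range_comp T
    have h2 : Set.range (fun k => T (σ' k)) = Set.range T := σ'.surjective.range_comp T
    rw [h1, h2]
  have := h.range_inj h' |>.1 hr
  have hT : Function.Injective T := by
    intro a c hac
    have := h.injective (a₁ := σ.symm a) (a₂ := σ.symm c) (by simpa using hac)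
    simpa using this
  ext k
  have hk := congrFun this k
  exact congrArg Fin.val (hT hk)

theorem rt_lt_one {b : ℝ → ℝ} {X : Bool} {p : ℝ × ℝ} (h0 : 0 ≤ p.1) (h : rt b X p < 1) :
    X = true ∧ p.2 ≤ b p.1 ∧ rt b X p = p.1 := by
  unfold rt at h ⊢
  split_ifs at h ⊢ with hc
  · exact ⟨hc.1, hc.2, rfl⟩
  · linarith

theorem le_rt (b : ℝ → ℝ) (X : Bool) (p : ℝ × ℝ) : p.1 ≤ rt b X p := by
  unfold rt
  split_ifs
  · exact le_refl _
  · linarith

theorem map_reindex {n : ℕ} {E : Type*} [Fintype E] [DecidableEq E] (κ : Measure (ℝ × ℝ))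
    [IsProbabilityMeasure κ] (π : Fin n ≃ E) :
    MeasurePreserving (fun (Z : Fin n → ℝ × ℝ) (e : E) => Z (π.symm e))
      (Measure.pi fun _ => κ) (Measure.pi fun _ => κ) := by
  have hm : Measurable (fun (Z : Fin n → ℝ × ℝ) (e : E) => Z (π.symm e)) :=
    measurable_pi_lambda _ fun e => measurable_pi_apply _
  refine ⟨hm, ?_⟩
  symm
  refine Measure.pi_eq fun s hs => ?_
  rw [Measure.map_apply hm (MeasurableSet.univ_pi hs)]
  have : (fun (Z : Fin n → ℝ × ℝ) (e : E) => Z (π.symm e)) ⁻¹' Set.univ.pi s =
      Set.univ.pi fun k => s (π k) := by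
    ext Z
    simp only [Set.mem_preimage, Set.mem_pi, Set.mem_univ, true_implies]
    constructor
    · intro h k; simpa using h (π k)
    · intro h e; simpa using h (π.symm e)
  rw [this, Measure.pi_pi]
  exact Equiv.prod_comp π (fun e => κ (s e))

theorem pi_laws_eq {b : G.edgeSet → ℝ → ℝ} (hb : ∀ e, Measurable (b e))
    (x : G.edgeSet → ℝ) (hx : ∀ e, 0 ≤ x e ∧ x e ≤ 1)
    (lam : V → Measure ℝ) [∀ v, IsProbabilityMeasure (lam v)]
    [∀ i, SigmaFinite (laws b x lam i)] :
    Measure.pi (laws b x lam) = ∑ X : G.edgeSet → Bool,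
      ENNReal.ofReal (∏ f, if X f then x f else 1 - x f) •
        ((Measure.pi fun _ : G.edgeSet => unif.prod unif).prod (Measure.pi lam)).map
          (fun p => rts b X p.1 p.2) := by
  refine Measure.pi_eq fun s hs => ?_
  rw [Measure.finsetSum_apply]
  have h1 : ∀ X : G.edgeSet → Bool, (ENNReal.ofReal (∏ f, if X f then x f else 1 - x f) •
        ((Measure.pi fun _ : G.edgeSet => unif.prod unif).prod (Measure.pi lam)).map
          (fun p => rts b X p.1 p.2)) (Set.univ.pi s) =
      (∏ f, (ENNReal.ofReal (if X f then x f else 1 - x f) *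
        ((unif.prod unif).map (rt (b f) (X f))) (s (Sum.inl f)))) *
        ∏ v, lam v (s (Sum.inr v)) := by
    intro X
    rw [Measure.smul_apply, Measure.map_apply (measurable_rts hb X) (MeasurableSet.univ_pi hs)]
    have h2 : (fun p : (G.edgeSet → ℝ × ℝ) × (V → ℝ) => rts b X p.1 p.2) ⁻¹' Set.univ.pi s =
        (Set.univ.pi fun e => (rt (b e) (X e)) ⁻¹' s (Sum.inl e)) ×ˢ
          (Set.univ.pi fun v => s (Sum.inr v)) := by
      ext p
      simp only [Set.mem_preimage, Set.mem_pi, Set.mem_univ, true_implies, Set.mem_prod]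
      constructor
      · intro h; exact ⟨fun e => h (Sum.inl e), fun v => h (Sum.inr v)⟩
      · rintro ⟨h1, h2⟩ i
        rcases i with e | v
        · exact h1 e
        · exact h2 v
    rw [h2, Measure.prod_prod, Measure.pi_pi, Measure.pi_pi, Finset.prod_mul_distrib,
      ENNReal.ofReal_prod_of_nonneg, smul_eq_mul, mul_assoc]
    · congr 2
      refine Finset.prod_congr rfl fun e _ => ?_
      rw [Measure.map_apply (measurable_rt (hb e) (X e)) (hs _)]
    · intro f _
      split_ifs
      · exact (hx f).1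
      · linarith [(hx f).2]
  simp_rw [h1]
  rw [← Finset.sum_mul, Fintype.prod_sum_type]
  congr 1
  have h3 : ∀ e : G.edgeSet, (laws b x lam (Sum.inl e)) (s (Sum.inl e)) =
      ∑ c : Bool, ENNReal.ofReal (if c then x e else 1 - x e) *
        ((unif.prod unif).map (rt (b e) c)) (s (Sum.inl e)) := by
    intro e
    simp [laws]
  simp_rw [h3]
  rw [Finset.prod_univ_sum, Fintype.piFinset_univ]

end Link

end Pool.Agent.RZ.RCRS
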