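import Mathlib

/-! Random order contention resolution schemes for matchings (MP_73ccd0_lc): the model. -/

namespace Pool.Agent.RZ.RCRS

open MeasureTheory

/-- `x` is a fractional matching of `G`: weights in `[0,1]` on the edges, and the total weight of
the edges at every vertex is at most one. -/
def IsFractionalMatching {V : Type} (G : SimpleGraph V) [Fintype G.edgeSet]
    [DecidableEq V] (x : G.edgeSet → ℝ) : Prop :=
  (∀ e, 0 ≤ x e ∧ x e ≤ 1) ∧ ∀ v : V, (∑ e : G.edgeSet, if v ∈ (e : Sym2 V) then x e else 0) ≤ 1

/-- A random order contention resolution scheme for (the given fractional matching of) the graph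
`G`, with internal randomness `ω` drawn from the probability space `(Ω, μ)`.
`select ω π X` is the set of selected edges when the edges arrive in the order
`π 0, π 1, ...` and the states are `X` (`X e = true` means that `e` is active).
`online` says that the decision on the `k`-th arriving edge depends only on the internal
randomness and on the first `k` arrived edges and their states (the edge itself included). -/
structure Scheme {V : Type} (G : SimpleGraph V) [Fintype G.edgeSet] where
  /-- the space of internal randomness -/
  Ω : Type
  /-- its measurable structure -/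
  mΩ : MeasurableSpace Ω
  /-- the law of the internal randomness -/
  μ : Measure Ω
  prob : IsProbabilityMeasure μ
  /-- the set of selected edges -/
  select : Ω → (Fin (Fintype.card G.edgeSet) ≃ G.edgeSet) → (G.edgeSet → Bool) → Set G.edgeSet
  measurable : ∀ π X e, MeasurableSet {ω | e ∈ select ω π X}
  active : ∀ ω π X e, e ∈ select ω π X → X e = true
  matching : ∀ ω π X e f, e ∈ select ω π X → f ∈ select ω π X → e ≠ f →
    ∀ v : V, ¬ (v ∈ (e : Sym2 V) ∧ v ∈ (f : Sym2 V))
  online : ∀ ω π π' X X' k, (∀ j ≤ k, π j = π' j ∧ X (π j) = X' (π' j)) →
    (π k ∈ select ω π X ↔ π' k ∈ select ω π' X')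

/-- The probability that the scheme selects the edge `e`, over independent states
`X f ~ Bernoulli (x f)`, a uniformly random arrival order, and the internal randomness. -/
noncomputable def Scheme.selProb {V : Type} {G : SimpleGraph V} [Fintype G.edgeSet]
    [DecidableEq G.edgeSet] (S : Scheme G) (x : G.edgeSet → ℝ) (e : G.edgeSet) : ℝ :=
  (∑ π : Fin (Fintype.card G.edgeSet) ≃ G.edgeSet, ∑ X : G.edgeSet → Bool,
    (∏ f, if X f then x f else 1 - x f) * (@Measure.real S.Ω S.mΩ S.μ {ω | e ∈ S.select ω π X}))
    / (Fintype.card G.edgeSet).factorial

end Pool.Agent.RZ.RCRS
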