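import Pool.Agent.RZ.RCRS.Greedy_2
import Pool.Agent.RZ.RCRS.Link_1
import Pool.Agent.RZ.RCRS.Meas
import Pool.Agent.RZ.RCRS.Model

/-! From ring processes with independent ring times to random order contention resolution
schemes (MP_73ccd0_lc). -/

set_option linter.unusedSectionVars false

namespace Pool.Agent.RZ.RCRS

open MeasureTheory

section Link

variable {V : Type} [Fintype V] [DecidableEq V] (G : SimpleGraph V) [Fintype G.edgeSet]
  [DecidableEq G.edgeSet]

variable {G}

/-- the selection event -/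
def selEv (b : G.edgeSet → ℝ → ℝ) (X : G.edgeSet → Bool) (e : G.edgeSet)
    (Z : G.edgeSet → ℝ × ℝ) (l : V → ℝ) : Prop :=
  sel (ends G) Finset.univ (rts b X Z l) (Sum.inl e) ∧ rts b X Z l (Sum.inl e) < 1

theorem measurable_selEv {b : G.edgeSet → ℝ → ℝ} (hb : ∀ e, Measurable (b e))
    (X : G.edgeSet → Bool) (e : G.edgeSet) :
    Measurable fun p : (G.edgeSet → ℝ × ℝ) × (V → ℝ) => selEv b X e p.1 p.2 := by
  refine Measurable.and ?_ ?_
  · exact (measurable_sel (ends G) Finset.univ (Sum.inl e)).comp (measurable_rts hb X)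
  · exact measurableSet_setOfPred.1 (measurableSet_lt
      ((measurable_pi_apply (Sum.inl e)).comp (measurable_rts hb X)) measurable_const)

/-- the selected set for the arrival order `π`, the states `X` and the internal randomness `ω`:
the arrival times are the sorted first coordinates of `ω.1` -/
def selectSet (b : G.edgeSet → ℝ → ℝ)
    (ω : (Fin (Fintype.card G.edgeSet) → ℝ × ℝ) × (V → ℝ))
    (π : Fin (Fintype.card G.edgeSet) ≃ G.edgeSet) (X : G.edgeSet → Bool) : Set G.edgeSet :=
  {e | ∃ σ : Equiv.Perm (Fin (Fintype.card G.edgeSet)),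
    StrictMono (fun k => (ω.1 (σ k)).1) ∧ (∀ k, (ω.1 k).1 ∈ Set.Ico (0:ℝ) 1) ∧
    selEv b X e (fun e => ω.1 (σ (π.symm e))) ω.2}

theorem selectSet_active {b : G.edgeSet → ℝ → ℝ} {ω π} {X : G.edgeSet → Bool} {e : G.edgeSet}
    (h : e ∈ selectSet b ω π X) : X e = true := by
  obtain ⟨σ, _, h2, h3⟩ := h
  exact (rt_lt_one (h2 _).1 h3.2).1

theorem selectSet_matching {b : G.edgeSet → ℝ → ℝ} {ω π} {X : G.edgeSet → Bool}
    {e f : G.edgeSet} (he : e ∈ selectSet b ω π X) (hf : f ∈ selectSet b ω π X) (hef : e ≠ f)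
    (v : V) : ¬ (v ∈ (e : Sym2 V) ∧ v ∈ (f : Sym2 V)) := by
  rintro ⟨hve, hvf⟩
  obtain ⟨σ, h1, h2, h3⟩ := he
  obtain ⟨σ', h1', h2', h3'⟩ := hf
  have hσ := strictMono_perm_unique (T := fun k => (ω.1 k).1) h1 h1'
  subst hσ
  set ρ := rts b X (fun e => ω.1 (σ (π.symm e))) ω.2 with hρ
  have hnd : ¬ Disjoint (ends G (Sum.inl e)) (ends G (Sum.inl f)) := by
    rw [Finset.not_disjoint_iff]
    exact ⟨v, by simpa [ends] using hve, by simpa [ends] using hvf⟩
  have e1 := (rt_lt_one (h2 _).1 h3.2).2.2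
  have e2 := (rt_lt_one (h2 _).1 h3'.2).2.2
  have hne : ρ (Sum.inl e) ≠ ρ (Sum.inl f) := by
    intro h
    have h' : (ω.1 (σ (π.symm e))).1 = (ω.1 (σ (π.symm f))).1 := by
      rw [← e1, ← e2]; exact h
    have := h1.injective h'
    exact hef (π.symm.injective this)
  rcases lt_or_gt_of_ne hne with hlt | hgt
  · exact ((sel_iff (ends G) _ ρ _).1 h3'.1).2 _ (Finset.mem_univ _) hnd hlt h3.1
  · exact ((sel_iff (ends G) _ ρ _).1 h3.1).2 _ (Finset.mem_univ _) (fun h => hnd h.symm) hgt h3'.1

theorem selectSet_online_aux {b : G.edgeSet → ℝ → ℝ} {ω}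
    {π π' : Fin (Fintype.card G.edgeSet) ≃ G.edgeSet} {X X' : G.edgeSet → Bool}
    {k : Fin (Fintype.card G.edgeSet)}
    (h : ∀ j ≤ k, π j = π' j ∧ X (π j) = X' (π' j)) (hk : π k ∈ selectSet b ω π X) :
    π' k ∈ selectSet b ω π' X' := by
  obtain ⟨σ, h1, h2, h3⟩ := hk
  refine ⟨σ, h1, h2, ?_⟩
  set Z : G.edgeSet → ℝ × ℝ := fun e => ω.1 (σ (π.symm e)) with hZ
  set Z' : G.edgeSet → ℝ × ℝ := fun e => ω.1 (σ (π'.symm e)) with hZ'
  rw [← (h k le_rfl).1]
  have hfk := (rt_lt_one (h2 _).1 h3.2)
  have hZk : Z (π k) = ω.1 (σ k) := by simp [hZ]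
  have hZ'k : Z' (π k) = ω.1 (σ k) := by rw [(h k le_rfl).1]; simp [hZ']
  have hXk : X' (π k) = X (π k) := by
    have := (h k le_rfl).2
    rw [← (h k le_rfl).1] at this; exact this.symm
  have heq : rts b X' Z' ω.2 (Sum.inl (π k)) = rts b X Z ω.2 (Sum.inl (π k)) := by
    show rt _ _ _ = rt _ _ _
    rw [hXk, hZ'k, hZk]
  have hval : rts b X Z ω.2 (Sum.inl (π k)) = (ω.1 (σ k)).1 := by
    rw [← hZk]; exact hfk.2.2
  -- agreement before the arrival of the k-th edge
  have hagree : ∀ g, rts b X Z ω.2 g < (ω.1 (σ k)).1 ∨ rts b X' Z' ω.2 g < (ω.1 (σ k)).1 →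
      rts b X' Z' ω.2 g = rts b X Z ω.2 g := by
    intro g hg
    rcases g with e | v
    · -- position of e in π
      obtain ⟨j, rfl⟩ := π.surjective e
      by_cases hjk : j ≤ k
      · obtain ⟨hj1, hj2⟩ := h j hjk
        show rt _ _ _ = rt _ _ _
        have ha : Z' (π j) = ω.1 (σ j) := by rw [hj1]; simp [hZ']
        have hb' : Z (π j) = ω.1 (σ j) := by simp [hZ]
        have hc : X' (π j) = X (π j) := by rw [← hj1] at hj2; exact hj2.symm
        rw [hc, ha, hb']
      · exfalso
        push Not at hjk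
        have hZj : Z (π j) = ω.1 (σ j) := by simp [hZ]
        obtain ⟨j', hj'⟩ := π'.surjective (π j)
        have hj'k : k < j' := by
          by_contra hcon
          push Not at hcon
          have := (h j' hcon).1
          rw [hj'] at this
          have := π.injective this
          omega
        have hZ'j : Z' (π j) = ω.1 (σ j') := by rw [← hj']; simp [hZ']
        rcases hg with hg | hg
        · have := le_rt (b (π j)) (X (π j)) (Z (π j))
          have h5 : (ω.1 (σ k)).1 < (ω.1 (σ j)).1 := h1 hjk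
          have : rts b X Z ω.2 (Sum.inl (π j)) = rt (b (π j)) (X (π j)) (Z (π j)) := rfl
          rw [hZj] at *
          linarith
        · have := le_rt (b (π j)) (X' (π j)) (Z' (π j))
          have h5 : (ω.1 (σ k)).1 < (ω.1 (σ j')).1 := h1 hj'k
          have : rts b X' Z' ω.2 (Sum.inl (π j)) = rt (b (π j)) (X' (π j)) (Z' (π j)) := rfl
          rw [hZ'j] at *
          linarith
    · rfl
  refine ⟨?_, by rw [heq]; exact h3.2⟩
  refine (sel_congr' (ends G) (Sum.inl (π k)) (Finset.mem_univ _) (Finset.mem_univ _) heq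
    ?_ ?_).1 h3.1
  · intro g
    rw [hval]
    constructor
    · rintro ⟨_, hg⟩
      exact ⟨Finset.mem_univ _, by rw [hagree g (Or.inl hg)]; exact hg⟩
    · rintro ⟨_, hg⟩
      refine ⟨Finset.mem_univ _, ?_⟩
      rw [← hagree g (Or.inr hg)]; exact hg
  · intro g _ hg
    rw [hval] at hg
    exact hagree g (Or.inl hg)

/-- the scheme -/
noncomputable def scheme (b : G.edgeSet → ℝ → ℝ) (hb : ∀ e, Measurable (b e))
    (lam : V → Measure ℝ) [∀ v, IsProbabilityMeasure (lam v)] : Scheme G where
  Ω := (Fin (Fintype.card G.edgeSet) → ℝ × ℝ) × (V → ℝ)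
  mΩ := inferInstance
  μ := (Measure.pi fun _ => unif.prod unif).prod (Measure.pi lam)
  prob := inferInstance
  select := fun ω π X => selectSet b ω π X
  measurable := by
    intro π X e
    refine measurableSet_setOfPred.2 (Measurable.exists fun σ => ?_)
    refine Measurable.and ?_ (Measurable.and ?_ ?_)
    · unfold StrictMono
      refine Measurable.forall fun i => Measurable.forall fun j => measurable_const.imp ?_
      exact measurableSet_setOfPred.1 (measurableSet_lt
        (measurable_fst.comp ((measurable_pi_apply (σ i)).comp measurable_fst))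
        (measurable_fst.comp ((measurable_pi_apply (σ j)).comp measurable_fst)))
    · refine Measurable.forall fun k => ?_
      exact measurableSet_setOfPred.1 ((measurable_fst.comp
        ((measurable_pi_apply k).comp measurable_fst)) measurableSet_Ico)
    · refine (measurable_selEv hb X e).comp (Measurable.prodMk ?_ measurable_snd)
      exact measurable_pi_lambda _ fun e => (measurable_pi_apply _).comp measurable_fst
  active := fun ω π X e h => selectSet_active h
  matching := fun ω π X e f he hf hef v => selectSet_matching he hf hef v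
  online := fun ω π π' X X' k h => ⟨selectSet_online_aux h, selectSet_online_aux
    (fun j hj => ⟨(h j hj).1.symm, (h j hj).2.symm⟩)⟩

theorem times_good {n : ℕ} :
    ∀ᵐ Z ∂(Measure.pi fun _ : Fin n => unif.prod unif),
      Function.Injective (fun k => (Z k).1) ∧ ∀ k, (Z k).1 ∈ Set.Ico (0:ℝ) 1 := by
  have h2 : ∀ k, ∀ᵐ Z ∂(Measure.pi fun _ : Fin n => unif.prod unif),
      (Z k).1 ∈ Set.Ico (0:ℝ) 1 := by
    intro k
    have h3 : ∀ᵐ p ∂(unif.prod unif), p.1 ∈ Set.Ico (0:ℝ) 1 := by
      have : ∀ᵐ t ∂unif, t ∈ Set.Ico (0:ℝ) 1 := ae_restrict_mem measurableSet_Ico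
      exact Measure.quasiMeasurePreserving_fst.ae this
    exact (measurePreserving_eval (fun _ : Fin n => unif.prod unif) k).quasiMeasurePreserving.ae h3
  have h1 : ∀ i j : Fin n, i ≠ j → ∀ᵐ Z ∂(Measure.pi fun _ : Fin n => unif.prod unif),
      (Z i).1 ≠ (Z j).1 := by
    intro i j hij
    have hEm : MeasurableSet {Z : Fin n → ℝ × ℝ | (Z i).1 = (Z j).1} :=
      measurableSet_eq_fun (measurable_fst.comp (measurable_pi_apply i))
        (measurable_fst.comp (measurable_pi_apply j))
    have h0 : (Measure.pi fun _ : Fin n => unif.prod unif).real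
        {Z : Fin n → ℝ × ℝ | (Z i).1 = (Z j).1} = 0 := by
      rw [real_eq_integral_mix (fun _ : Fin n => unif.prod unif) {i} _ hEm]
      have : ∀ ρ : Fin n → ℝ × ℝ, (Measure.pi fun _ : Fin n => unif.prod unif).real
          {τ | mix {i} (ρ, τ) ∈ {Z : Fin n → ℝ × ℝ | (Z i).1 = (Z j).1}} = 0 := by
        intro ρ
        have h1 : {τ | mix {i} (ρ, τ) ∈ {Z : Fin n → ℝ × ℝ | (Z i).1 = (Z j).1}} =
            {τ | ∀ k ∈ ({i} : Finset (Fin n)), τ k ∈ (fun _ => ({(ρ j).1} : Set ℝ) ×ˢ
              (Set.univ : Set ℝ)) k} := by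
          ext τ
          simp only [Set.mem_ofPred_eq, Finset.mem_singleton, forall_eq, Set.mem_prod,
            Set.mem_univ, and_true, Set.mem_singleton_iff]
          have e1 : mix {i} (ρ, τ) i = τ i := by simp [mix]
          have e2 : mix {i} (ρ, τ) j = ρ j := by simp [mix, hij.symm]
          rw [e1, e2]
        rw [h1, pi_real_box]
        simp only [Finset.prod_singleton]
        unfold Measure.real
        rw [Measure.prod_prod]
        have : unif {(ρ j).1} = 0 := by
          unfold unif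
          exact le_antisymm ((Measure.restrict_apply_le _ _).trans (by simp)) bot_le
        simp [this]
      simp_rw [this]
      simp
    have h0' : (Measure.pi fun _ : Fin n => unif.prod unif)
        {Z : Fin n → ℝ × ℝ | (Z i).1 = (Z j).1} = 0 := by
      unfold Measure.real at h0
      rw [ENNReal.toReal_eq_zero_iff] at h0
      exact h0.resolve_right (measure_ne_top _ _)
    rw [ae_iff]
    simpa using h0'
  have h3 : ∀ᵐ Z ∂(Measure.pi fun _ : Fin n => unif.prod unif), ∀ i j, i ≠ j → (Z i).1 ≠ (Z j).1 := by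
    rw [ae_all_iff]; intro i
    rw [ae_all_iff]; intro j
    by_cases hij : i = j
    · exact Filter.Eventually.of_forall fun Z h => absurd hij h
    · filter_upwards [h1 i j hij] with Z hZ _ using hZ
  have h4 := ae_all_iff.2 h2
  filter_upwards [h3, h4] with Z hZ3 hZ4
  refine ⟨?_, hZ4⟩
  intro i j hij
  by_contra hne
  exact hZ3 i j hne hij

/-- for good internal randomness, the number of orders selecting `e` can be computed with the
unsorted times -/
theorem sum_select (b : G.edgeSet → ℝ → ℝ) (X : G.edgeSet → Bool) (e : G.edgeSet)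
    (ω : (Fin (Fintype.card G.edgeSet) → ℝ × ℝ) × (V → ℝ))
    (hinj : Function.Injective (fun k => (ω.1 k).1))
    (hico : ∀ k, (ω.1 k).1 ∈ Set.Ico (0:ℝ) 1) :
    ∑ π : Fin (Fintype.card G.edgeSet) ≃ G.edgeSet,
      Set.indicator {ω | e ∈ selectSet b ω π X} (fun _ => (1:ℝ)) ω =
    ∑ π : Fin (Fintype.card G.edgeSet) ≃ G.edgeSet,
      Set.indicator {ω : (Fin (Fintype.card G.edgeSet) → ℝ × ℝ) × (V → ℝ) |
        selEv b X e (fun e => ω.1 (π.symm e)) ω.2} (fun _ => (1:ℝ)) ω := by
  classical
  set T : Fin (Fintype.card G.edgeSet) → ℝ := fun k => (ω.1 k).1 with hT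
  set σ := Tuple.sort T with hσ
  have hmono : StrictMono (fun k => (ω.1 (σ k)).1) := by
    have h1 : Monotone (T ∘ σ) := Tuple.monotone_sort T
    exact h1.strictMono_of_injective (hinj.comp σ.injective)
  refine Fintype.sum_equiv (Equiv.equivCongr σ (Equiv.refl _)) _ _ fun π => ?_
  have h1 : ω ∈ {ω | e ∈ selectSet b ω π X} ↔
      ω ∈ {ω : (Fin (Fintype.card G.edgeSet) → ℝ × ℝ) × (V → ℝ) |
        selEv b X e (fun e => ω.1 (((Equiv.equivCongr σ (Equiv.refl _)) π).symm e)) ω.2} := by
    simp only [Set.mem_ofPred_eq]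
    constructor
    · rintro ⟨σ', h1, _, h3⟩
      have := strictMono_perm_unique (T := fun k => (ω.1 k).1) hmono h1
      subst this
      exact h3
    · intro h
      exact ⟨σ, hmono, hico, h⟩
  by_cases hc : ω ∈ {ω | e ∈ selectSet b ω π X}
  · rw [Set.indicator_of_mem hc, Set.indicator_of_mem (h1.1 hc)]
  · rw [Set.indicator_of_notMem hc, Set.indicator_of_notMem (fun h => hc (h1.2 h))]

theorem sum_real_select {b : G.edgeSet → ℝ → ℝ} (hb : ∀ e, Measurable (b e))
    (lam : V → Measure ℝ) [∀ v, IsProbabilityMeasure (lam v)]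
    (X : G.edgeSet → Bool) (e : G.edgeSet) :
    ∑ π : Fin (Fintype.card G.edgeSet) ≃ G.edgeSet,
      ((Measure.pi fun _ : Fin (Fintype.card G.edgeSet) => unif.prod unif).prod
        (Measure.pi lam)).real {ω | e ∈ selectSet b ω π X} =
    (Fintype.card G.edgeSet).factorial *
      ((Measure.pi fun _ : G.edgeSet => unif.prod unif).prod (Measure.pi lam)).real
        {p | selEv b X e p.1 p.2} := by
  set μ := ((Measure.pi fun _ : Fin (Fintype.card G.edgeSet) => unif.prod unif).prod
        (Measure.pi lam)) with hμ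
  have hm1 : ∀ π, MeasurableSet {ω | e ∈ selectSet b ω π X} := fun π =>
    (scheme b hb lam).measurable π X e
  have hm2 : ∀ π : Fin (Fintype.card G.edgeSet) ≃ G.edgeSet,
      MeasurableSet {ω : (Fin (Fintype.card G.edgeSet) → ℝ × ℝ) × (V → ℝ) |
        selEv b X e (fun e => ω.1 (π.symm e)) ω.2} := by
    intro π
    refine measurableSet_setOfPred.2 ((measurable_selEv hb X e).comp
      (Measurable.prodMk ?_ measurable_snd))
    exact measurable_pi_lambda _ fun e => (measurable_pi_apply _).comp measurable_fst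
  have h1 : ∑ π : Fin (Fintype.card G.edgeSet) ≃ G.edgeSet,
      μ.real {ω | e ∈ selectSet b ω π X} =
      ∑ π : Fin (Fintype.card G.edgeSet) ≃ G.edgeSet,
      μ.real {ω | selEv b X e (fun e => ω.1 (π.symm e)) ω.2} := by
    have i1 : ∀ π : Fin (Fintype.card G.edgeSet) ≃ G.edgeSet,
        μ.real {ω | e ∈ selectSet b ω π X} =
        ∫ ω, Set.indicator {ω | e ∈ selectSet b ω π X} (fun _ => (1:ℝ)) ω ∂μ := by
      intro π
      rw [integral_indicator (hm1 π)]; simp
    have i2 : ∀ π : Fin (Fintype.card G.edgeSet) ≃ G.edgeSet,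
        μ.real {ω : (Fin (Fintype.card G.edgeSet) → ℝ × ℝ) × (V → ℝ) |
          selEv b X e (fun e => ω.1 (π.symm e)) ω.2} =
        ∫ ω, Set.indicator {ω : (Fin (Fintype.card G.edgeSet) → ℝ × ℝ) × (V → ℝ) |
          selEv b X e (fun e => ω.1 (π.symm e)) ω.2} (fun _ => (1:ℝ)) ω ∂μ := by
      intro π
      rw [integral_indicator (hm2 π)]; simp
    simp_rw [i1, i2]
    rw [← integral_finsetSum, ← integral_finsetSum]
    · refine integral_congr_ae ?_
      have hg : ∀ᵐ ω ∂μ, Function.Injective (fun k => (ω.1 k).1) ∧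
          ∀ k, (ω.1 k).1 ∈ Set.Ico (0:ℝ) 1 :=
        Measure.quasiMeasurePreserving_fst.ae times_good
      filter_upwards [hg] with ω hω
      exact sum_select b X e ω hω.1 hω.2
    · intro π _; exact (integrable_const _).indicator (hm2 π)
    · intro π _; exact (integrable_const _).indicator (hm1 π)
  rw [h1]
  have h2 : ∀ π : Fin (Fintype.card G.edgeSet) ≃ G.edgeSet,
      μ.real {ω | selEv b X e (fun e => ω.1 (π.symm e)) ω.2} =
      ((Measure.pi fun _ : G.edgeSet => unif.prod unif).prod (Measure.pi lam)).real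
        {p | selEv b X e p.1 p.2} := by
    intro π
    have hmp := (map_reindex (unif.prod unif) π).prod (MeasurePreserving.id (Measure.pi lam))
    have hS : MeasurableSet {p : (G.edgeSet → ℝ × ℝ) × (V → ℝ) | selEv b X e p.1 p.2} :=
      measurableSet_setOfPred.2 (measurable_selEv hb X e)
    unfold Measure.real
    rw [← hmp.measure_preimage hS.nullMeasurableSet]
    rfl
  simp_rw [h2]
  rw [Finset.sum_const, nsmul_eq_mul, Finset.card_univ, Fintype.card_equiv
    (Fintype.equivFin G.edgeSet).symm, Fintype.card_fin]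

theorem scheme_selProb {b : G.edgeSet → ℝ → ℝ} (hb : ∀ e, Measurable (b e))
    (x : G.edgeSet → ℝ) (hx : ∀ e, 0 ≤ x e ∧ x e ≤ 1)
    (lam : V → Measure ℝ) [∀ v, IsProbabilityMeasure (lam v)]
    [∀ i, SigmaFinite (laws b x lam i)] (e : G.edgeSet) :
    (scheme b hb lam).selProb x e = (Measure.pi (laws b x lam)).real
      {ρ | sel (ends G) Finset.univ ρ (Sum.inl e) ∧ ρ (Sum.inl e) < 1} := by
  have hS : MeasurableSet {ρ : G.edgeSet ⊕ V → ℝ |
      sel (ends G) Finset.univ ρ (Sum.inl e) ∧ ρ (Sum.inl e) < 1} := by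
    refine measurableSet_setOfPred.2 ((measurable_sel (ends G) Finset.univ (Sum.inl e)).and ?_)
    exact measurableSet_setOfPred.1 (measurableSet_lt (measurable_pi_apply _) measurable_const)
  have hw : ∀ X : G.edgeSet → Bool, 0 ≤ (∏ f, if X f then x f else 1 - x f) := by
    intro X
    refine Finset.prod_nonneg fun f _ => ?_
    split_ifs
    · exact (hx f).1
    · linarith [(hx f).2]
  unfold Scheme.selProb
  rw [Finset.sum_comm]
  have h1 : ∀ X : G.edgeSet → Bool, ∑ π : Fin (Fintype.card G.edgeSet) ≃ G.edgeSet,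
      (∏ f, if X f then x f else 1 - x f) *
        (@Measure.real (scheme b hb lam).Ω (scheme b hb lam).mΩ (scheme b hb lam).μ
          {ω | e ∈ (scheme b hb lam).select ω π X}) =
      (Fintype.card G.edgeSet).factorial * ((∏ f, if X f then x f else 1 - x f) *
        ((Measure.pi fun _ : G.edgeSet => unif.prod unif).prod (Measure.pi lam)).real
        {p | selEv b X e p.1 p.2}) := by
    intro X
    rw [← Finset.mul_sum]
    have := sum_real_select hb lam X e
    rw [show (∑ π : Fin (Fintype.card G.edgeSet) ≃ G.edgeSet,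
        (@Measure.real (scheme b hb lam).Ω (scheme b hb lam).mΩ (scheme b hb lam).μ
          {ω | e ∈ (scheme b hb lam).select ω π X})) = _ from this]
    ring
  simp_rw [h1]
  rw [← Finset.mul_sum, mul_comm, mul_div_assoc, div_self (by positivity), mul_one]
  unfold Measure.real
  rw [pi_laws_eq hb x hx lam, Measure.finsetSum_apply, ENNReal.toReal_sum]
  · refine Finset.sum_congr rfl fun X _ => ?_
    rw [Measure.smul_apply, Measure.map_apply (measurable_rts hb X) hS, smul_eq_mul,
      ENNReal.toReal_mul, ENNReal.toReal_ofReal (hw X)]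
    rfl
  · intro X _
    rw [Measure.smul_apply, smul_eq_mul]
    exact ENNReal.mul_ne_top ENNReal.ofReal_ne_top (measure_ne_top _ _)

end Link

end Pool.Agent.RZ.RCRS
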