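import Pool.Agent.RZ.RCRS.Greedy_1

/-! Deterministic greedy process on items with ring times (used for random order contention
resolution for matchings, MP_73ccd0_lc): selection rule, locality, deletion inequality. -/

set_option linter.unusedSectionVars false

namespace Pool.Agent.RZ.RCRS

section Greedy

variable {ι V : Type*} [Fintype ι] [DecidableEq ι] [DecidableEq V] (en : ι → Finset V)

theorem free_anti {A : Finset ι} {ρ : ι → ℝ} {w : V} {s s' : ℝ} (hs : s' ≤ s)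
    (h : free en A ρ w s) : free en A ρ w s' :=
  fun f hf hw hsel => hs.trans (h f hf hw hsel)

/-- locality for an item ringing exactly at the horizon -/
theorem sel_congr' {A A' : Finset ι} {ρ ρ' : ι → ℝ} (f : ι) (hfA : f ∈ A) (hfA' : f ∈ A')
    (hf : ρ' f = ρ f)
    (h1 : ∀ g, (g ∈ A ∧ ρ g < ρ f) ↔ (g ∈ A' ∧ ρ' g < ρ f))
    (h2 : ∀ g ∈ A, ρ g < ρ f → ρ' g = ρ g) :
    (sel en A ρ f ↔ sel en A' ρ' f) := by
  rw [sel_iff, sel_iff]
  constructor
  · rintro ⟨_, h⟩
    refine ⟨hfA', fun g hg hd hlt => ?_⟩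
    rw [hf] at hlt
    have hg2 := (h1 g).2 ⟨hg, hlt⟩
    rw [← sel_congr en (ρ f) h1 h2 g hg2.2 hg2.1]
    exact h g hg2.1 hd hg2.2
  · rintro ⟨_, h⟩
    refine ⟨hfA, fun g hg hd hlt => ?_⟩
    have hg2 := (h1 g).1 ⟨hg, hlt⟩
    rw [sel_congr en (ρ f) h1 h2 g hlt hg]
    refine h g hg2.1 hd ?_
    rw [hf]; exact hg2.2

end Greedy

end Pool.Agent.RZ.RCRS
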