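import Pool.Agent.RZ.RCRS.Link_1
import Pool.Agent.RZ.RCRS.Model

/-! The ring process on the edges of a graph with one loop per vertex making all vertices
saturated, and the corresponding scheme (MP_73ccd0_lc). -/

set_option linter.unusedSectionVars false

namespace Pool.Agent.RZ.RCRS

open MeasureTheory

section Setup

variable {V : Type} [Fintype V] [DecidableEq V] {G : SimpleGraph V} [Fintype G.edgeSet]
  [DecidableEq G.edgeSet] (x : G.edgeSet → ℝ)

/-- the weight of the loop at `v` -/
noncomputable def defect (v : V) : ℝ := 1 - ∑ e : G.edgeSet, if v ∈ (e : Sym2 V) then x e else 0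

/-- weights of all items -/
noncomputable def wt : G.edgeSet ⊕ V → ℝ := Sum.elim x (defect x)

variable {x}

theorem defect_nonneg (hx : IsFractionalMatching G x) (v : V) : 0 ≤ defect x v := by
  have := hx.2 v; unfold defect; linarith

theorem defect_le_one (hx : IsFractionalMatching G x) (v : V) : defect x v ≤ 1 := by
  have : 0 ≤ ∑ e : G.edgeSet, if v ∈ (e : Sym2 V) then x e else 0 :=
    Finset.sum_nonneg fun e _ => by split_ifs; exacts [(hx.1 e).1, le_rfl]
  unfold defect; linarith

theorem wt_nonneg (hx : IsFractionalMatching G x) (i : G.edgeSet ⊕ V) : 0 ≤ wt x i := by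
  rcases i with e | v
  · exact (hx.1 e).1
  · exact defect_nonneg hx v

theorem ends_inl (e : G.edgeSet) (v : V) : v ∈ ends G (Sum.inl e) ↔ v ∈ (e : Sym2 V) := by
  simp [ends]

theorem ends_inr (v w : V) : w ∈ ends G (Sum.inr v) ↔ w = v := by
  simp [ends]

end Setup

end Pool.Agent.RZ.RCRS
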